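import Mathlib
import Pool.Agent.H16.Iso20

set_option autoImplicit false

namespace Pool.Agent.Results.MP_f969e6_lc.Counter

open Polynomial Pool.Agent.H16.Iso20

/-- The conjectured characterisation fails: `n = 20`, `i = 10`,
`g = x^10 + x^9 + x^7 + x^6 + x^2 + x + 1`. -/
theorem result :
    ¬ ∀ n i : ℕ, 1 ≤ i → i < n → ∀ g : (ZMod 2)[X], g.Monic → g ∣ tri n i →
      (IsoDual (code n i g) ↔ g ^ 2 = tri n i) :=
  fun h => g0_sq ((h 20 10 (by norm_num) (by norm_num) g0 g0_monic g0_dvd).1 iso)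

end Pool.Agent.Results.MP_f969e6_lc.Counter
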